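import Pool.Agent.Y345.LS.Key

/-!
# The filtration, second version: two kinds of steps
-/

set_option autoImplicit false

open scoped commutatorElement

namespace Pool.Agent.Y345.LS

open Pool.Agent.H340R3.Loop

universe u

/-- The filtration used in the second kind of step. -/
def mkFilt2 {M M' : Type*} [Group M] [Group M'] (p : M →* M') (F' : Filt M') (e s : ℕ)
    (he : ∀ n, e < n → F'.S n = ⊥)
    (hs : p.ker ≤ Subgroup.upperCentralSeries M s)
    (hK : ∀ a ∈ p.ker, ∀ b ∈ p.ker, a * b = b * a)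
    (j : ℕ → ℕ) (j1 : ∀ n, e < n → j (n + 1) ≤ j n)
    (j2 : ∀ a b, e < a → b ≤ e → j a ≤ j (a + b) + 1)
    (j3 : ∀ n, e < n → n ≤ 2 * e → s ≤ j n) : Filt M where
  S n := if n ≤ e then (F'.S n).comap p else p.ker ⊓ Subgroup.upperCentralSeries M (j n)
  anti n := by
    rcases Nat.lt_trichotomy n e with h | h | h
    · rw [if_pos (by omega), if_pos (by omega)]
      exact Subgroup.comap_mono (F'.anti n)
    · rw [if_neg (by omega), if_pos (by omega)]
      intro g hg
      rw [Subgroup.mem_comap, MonoidHom.mem_ker.1 hg.1]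
      exact Subgroup.one_mem _
    · rw [if_neg (by omega), if_neg (by omega)]
      exact inf_le_inf_left _ (Subgroup.upperCentralSeries_mono M (j1 n h))
  comm := by
    have key : ∀ a b, e < a → b ≤ e → ∀ g ∈ p.ker ⊓ Subgroup.upperCentralSeries M (j a),
        ∀ h : M, ⁅g, h⁆ ∈ p.ker ⊓ Subgroup.upperCentralSeries M (j (a + b)) := by
      intro a b ha hb g hg h
      constructor
      · change ⁅g, h⁆ ∈ p.ker
        rw [MonoidHom.mem_ker, map_commutatorElement, MonoidHom.mem_ker.1 hg.1]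
        simp
      · have := Subgroup.upperCentralSeries_mono M (j2 a b ha hb) hg.2
        exact Subgroup.mem_upperCentralSeries_succ_iff.1 this h
    intro a b g hg h hh
    rcases Nat.lt_or_ge e a with ha | ha
    · rcases Nat.lt_or_ge e b with hb | hb
      · rw [if_neg (by omega)] at hg hh
        have : ⁅g, h⁆ = 1 := by
          rw [commutatorElement_eq_one_iff_mul_comm]
          exact hK g hg.1 h hh.1
        rw [this]
        exact Subgroup.one_mem _
      · rw [if_neg (by omega)] at hg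
        rw [if_neg (by omega)]
        exact key a b ha hb g hg h
    · rcases Nat.lt_or_ge e b with hb | hb
      · rw [if_neg (by omega)] at hh
        rw [if_neg (by omega), ← commutatorElement_inv, add_comm a b]
        exact inv_mem (key b a hb ha h hh g)
      · rw [if_pos ha] at hg
        rw [if_pos hb] at hh
        have h1 : p ⁅g, h⁆ ∈ F'.S (a + b) := by
          rw [map_commutatorElement]
          exact F'.comm a b _ hg _ hh
        rcases Nat.lt_or_ge e (a + b) with hab | hab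
        · rw [if_neg (by omega)]
          rw [he _ hab, Subgroup.mem_bot] at h1
          exact ⟨h1, Subgroup.upperCentralSeries_mono M (j3 (a + b) hab (by omega)) (hs h1)⟩
        · rw [if_pos hab]
          exact h1

section arith

/-- The exponents for the large filtration. -/
def jk (s e n : ℕ) : ℕ := (2 * s * e + e - n) / e

variable (s e : ℕ) (he : 0 < e)

theorem jk1 (n : ℕ) : jk s e (n + 1) ≤ jk s e n :=
  Nat.div_le_div_right (by omega)

include he

theorem jk2 (a b : ℕ) (hb : b ≤ e) : jk s e a ≤ jk s e (a + b) + 1 := by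
  unfold jk
  rw [← Nat.add_div_right _ he]
  exact Nat.div_le_div_right (by omega)

theorem jk4 (n : ℕ) (hn : n ≤ (s + 1) * e) : s ≤ jk s e n := by
  unfold jk
  rw [Nat.le_div_iff_mul_le he]
  have h1 : 2 * s * e = s * e + s * e := by ring
  have h2 : (s + 1) * e = s * e + e := by ring
  omega

theorem jk3 (hs : 1 ≤ s) (n : ℕ) (hn : n ≤ 2 * e) : s ≤ jk s e n := by
  apply jk4 s e he
  nlinarith

theorem jk5 (n : ℕ) (hn : 2 * s * e < n) : jk s e n = 0 := by
  unfold jk
  apply Nat.div_eq_of_lt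
  omega

theorem jk6 (n : ℕ) (hn : n ≤ 2 * s * e) : 1 ≤ jk s e n := by
  unfold jk
  rw [Nat.le_div_iff_mul_le he]
  omega

theorem jt3 (n : ℕ) (hn : n ≤ 2 * e) : s ≤ js s e n := by
  unfold js
  have : (n + e - 1) / e < 3 := by
    rw [Nat.div_lt_iff_lt_mul he]
    omega
  omega

theorem jt_le (hs : 1 ≤ s) (n : ℕ) : js s e n ≤ jk s e n := by
  unfold js jk
  rw [Nat.le_div_iff_mul_le he]
  set q := (n + e - 1) / e with hq
  have h1 : n + e - 1 < (q + 1) * e := by
    rw [← Nat.div_lt_iff_lt_mul he, ← hq]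
    omega
  have h2 : (q + 1) * e = q * e + e := by ring
  have h3 : n ≤ q * e := by omega
  rcases Nat.lt_or_ge (s + 2) q with h | h
  · rw [Nat.sub_eq_zero_of_le h.le]
    omega
  · have h4 : (s + 2 - q) * e + q * e = (s + 2) * e := by
      rw [← Nat.add_mul, Nat.sub_add_cancel h]
    have h5 : (s + 2) * e = s * e + e + e := by ring
    have h6 : 2 * s * e = s * e + s * e := by ring
    have h7 : 1 * e ≤ s * e := Nat.mul_le_mul_right e hs
    omega

end arith

/-- The second kind of step. -/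
theorem stepF2 {Q M : Type u} [Group M] [MulAction M Q] [FaithfulSMul M Q]
    (D : LoopData Q M) (s e : ℕ) (hs1 : 1 ≤ s) (he : 0 < e)
    (hs : (pp Q M).ker ≤ Subgroup.upperCentralSeries M s)
    (F' : Filt (MM Q M)) (h0 : F'.S 0 = ⊤) (h1 : F'.S 1 = ⊤) (hb : ∀ n, e < n → F'.S n = ⊥)
    (hcl : ∀ k, ∀ V ∈ (cubeFilt F' k).S 0,
        (fun v => D.quot.r (V v • D.quot.o)) ∈ (cubeFilt F' k).S 0 ∧
        (fun v => D.quot.l (V v • D.quot.o)) ∈ (cubeFilt F' k).S 0) :
    ∃ F : Filt M, F.S 0 = ⊤ ∧ F.S 1 = ⊤ ∧ (∀ n, 2 * s * e < n → F.S n = ⊥) ∧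
      ∀ k, ∀ V ∈ (cubeFilt F k).S 0,
        (fun v => D.r (V v • D.o)) ∈ (cubeFilt F k).S 0 ∧
        (fun v => D.l (V v • D.o)) ∈ (cubeFilt F k).S 0 := by
  let F : Filt M := mkFilt2 (pp Q M) F' e s hb hs pp_ker_comm (jk s e)
    (fun n _ => jk1 s e n) (fun a b _ hb => jk2 s e he a b hb)
    (fun n _ hn => jk3 s e he hs1 n hn)
  let Fs : Filt M := mkFilt2 (pp Q M) F' e s hb hs pp_ker_comm (js s e)
    (fun n _ => js1 s e he n) (fun a b _ hb => js2 s e he a b hb)
    (fun n _ hn => jt3 s e he n hn)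
  have hF : ∀ n, F.S n = if n ≤ e then (F'.S n).comap (pp Q M) else
    (pp Q M).ker ⊓ Subgroup.upperCentralSeries M (jk s e n) := fun n => rfl
  have hFs : ∀ n, Fs.S n = if n ≤ e then (F'.S n).comap (pp Q M) else
    (pp Q M).ker ⊓ Subgroup.upperCentralSeries M (js s e n) := fun n => rfl
  have hE : e ≤ 2 * s * e := by nlinarith
  have hd : e ≤ (s + 1) * e := by nlinarith
  have a1 : ∀ n, 2 * s * e < n → F.S n = ⊥ := by
    intro n hn
    rw [hF, if_neg (by omega), jk5 s e he n hn, Subgroup.upperCentralSeries_zero, inf_bot_eq]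
  have a2 : ∀ n, (s + 1) * e < n → Fs.S n = ⊥ := by
    intro n hn
    rw [hFs, if_neg (by omega), js5 s e he n hn, Subgroup.upperCentralSeries_zero, inf_bot_eq]
  have a3 : ∀ n, n ≤ (s + 1) * e → (pp Q M).ker ≤ F.S n := by
    intro n hn
    rw [hF]
    split_ifs with h
    · intro g hg
      rw [Subgroup.mem_comap, MonoidHom.mem_ker.1 hg]
      exact Subgroup.one_mem _
    · exact le_inf le_rfl (hs.trans (Subgroup.upperCentralSeries_mono M (jk4 s e he n hn)))
  have a4 : ∀ n, n ≤ 2 * s * e → Subgroup.center M ≤ F.S n := by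
    intro n hn
    rw [hF]
    split_ifs with h
    · intro g hg
      rw [Subgroup.mem_comap, MonoidHom.mem_ker.1 (pp_center hg)]
      exact Subgroup.one_mem _
    · refine le_inf pp_center ?_
      rw [← Subgroup.upperCentralSeries_one]
      exact Subgroup.upperCentralSeries_mono M (jk6 s e he n hn)
  have a5 : ∀ n, Fs.S n ≤ F.S n := by
    intro n
    rw [hF, hFs]
    split_ifs with h
    · exact le_rfl
    · exact inf_le_inf_left _ (Subgroup.upperCentralSeries_mono M (jt_le s e he hs1 n))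
  have a6 : ∀ n, ∀ g ∈ F.S n, pp Q M g ∈ F'.S n := by
    intro n g hg
    rw [hF] at hg
    split_ifs at hg with h
    · exact hg
    · rw [MonoidHom.mem_ker.1 hg.1]
      exact Subgroup.one_mem _
  have a7 : ∀ n, ∀ g' ∈ F'.S n, ∃ g ∈ Fs.S n, pp Q M g = g' := by
    intro n g' hg'
    rw [hFs]
    split_ifs with h
    · obtain ⟨g, rfl⟩ := pp_surj g'
      exact ⟨g, hg', rfl⟩
    · rw [hb n (by omega), Subgroup.mem_bot] at hg'
      exact ⟨1, Subgroup.one_mem _, by rw [hg', map_one]⟩
  have top0 : F.S 0 = ⊤ := by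
    rw [hF, if_pos (Nat.zero_le _), h0, Subgroup.comap_top]
  have top1 : F.S 1 = ⊤ := by
    rw [hF, if_pos (show 1 ≤ e from he), h1, Subgroup.comap_top]
  have tops : Fs.S 0 = ⊤ := by
    rw [hFs, if_pos (Nat.zero_le _), h0, Subgroup.comap_top]
  refine ⟨F, top0, top1, a1, ?_⟩
  intro k V hV
  constructor
  · exact step_r D D.quot (pp Q M) (qq Q M) (fun g x => (pp_smul g x).symm)
      (fun x y h => qq_eq.1 h) pp_center rfl (fun x => rfl) F Fs F' a6 a7 a5 _ _ a2 a3 a1 a4
      tops k (fun V hV => (hcl k V hV).1) V hV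
  · exact step_r D.swap D.quot.swap (pp Q M) (qq Q M) (fun g x => (pp_smul g x).symm)
      (fun x y h => qq_eq.1 h) pp_center rfl (fun x => rfl) F Fs F' a6 a7 a5 _ _ a2 a3 a1 a4
      tops k (fun V hV => (hcl k V hV).2) V hV

/-- All `n`-fold commutators `[…[[g, h₁], h₂], …, h_n]` act trivially modulo `Z_i`. -/
def W {Q M : Type*} [Group M] [MulAction M Q] (D : LoopData Q M) (i : ℕ) : ℕ → M → Prop
  | 0, g => ∀ x : Q, dv D (g • x) x ∈ Zd D i
  | n + 1, g => ∀ h : M, W D i n ⁅g, h⁆

theorem W_zero {Q M : Type*} [Group M] [MulAction M Q] [FaithfulSMul M Q] (D : LoopData Q M)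
    (n : ℕ) : ∀ g : M, W D 0 n g ↔ g ∈ Subgroup.upperCentralSeries M n := by
  induction n with
  | zero =>
    intro g
    rw [Subgroup.upperCentralSeries_zero, Subgroup.mem_bot]
    constructor
    · intro h
      apply FaithfulSMul.eq_of_smul_eq_smul (α := Q)
      intro x
      rw [(dv_o D _ _).1 (h x), one_smul]
    · rintro rfl x
      rw [one_smul]
      exact (dv_o D _ _).2 rfl
  | succ n ih =>
    intro g
    rw [Subgroup.mem_upperCentralSeries_succ_iff]
    constructor
    · intro h y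
      exact (ih _).1 (h y)
    · intro h y
      exact (ih _).2 (h y)

theorem W_quot {Q M : Type*} [Group M] [MulAction M Q] [FaithfulSMul M Q] (D : LoopData Q M)
    (hg : Gen D) (i n : ℕ) : ∀ g : M, W D.quot i n (pp Q M g) ↔ W D (i + 1) n g := by
  induction n with
  | zero =>
    intro g
    constructor
    · intro h x
      have := h (qq Q M x)
      rwa [pp_smul, dv_quot, Zd_quot D hg] at this
    · intro h x'
      obtain ⟨x, rfl⟩ := qq_surj x'
      rw [pp_smul, dv_quot, Zd_quot D hg]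
      exact h x
  | succ n ih =>
    intro g
    constructor
    · intro h y
      rw [← ih, map_commutatorElement]
      exact h _
    · intro h y'
      obtain ⟨y, rfl⟩ := pp_surj y'
      rw [← map_commutatorElement, ih]
      exact h y

/-- The bound. -/
def CC : ℕ → (ℕ → ℕ) → ℕ
  | 0, _ => 1
  | k + 1, t => t 0 * CC k (fun i => t (i + 1))

theorem CC_prod (k : ℕ) : ∀ t : ℕ → ℕ, CC k t = ∏ i ∈ Finset.range k, t i := by
  induction k with
  | zero => intro t; rfl
  | succ k ih =>
    intro t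
    rw [CC, ih, Finset.prod_range_succ', mul_comm]

/-- the hypothesis at one level -/
def Hyp {Q M : Type*} [Group M] [MulAction M Q] (D : LoopData Q M) (i t : ℕ) : Prop :=
  (∃ c, 1 ≤ c ∧ 2 * c - 1 ≤ t ∧ ∀ g : M, W D i c g) ∨
    (∃ s, 1 ≤ s ∧ 2 * s ≤ t ∧ ∀ g : M, W D (i + 1) 0 g → W D i s g)

theorem Hyp_quot {Q M : Type*} [Group M] [MulAction M Q] [FaithfulSMul M Q] (D : LoopData Q M)
    (hg : Gen D) (i t : ℕ) (h : Hyp D (i + 1) t) : Hyp D.quot i t := by
  rcases h with ⟨c, h1, h2, h3⟩ | ⟨s, h1, h2, h3⟩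
  · left
    refine ⟨c, h1, h2, fun g' => ?_⟩
    obtain ⟨g, rfl⟩ := pp_surj g'
    exact (W_quot D hg i c g).2 (h3 g)
  · right
    refine ⟨s, h1, h2, fun g' hg' => ?_⟩
    obtain ⟨g, rfl⟩ := pp_surj g'
    exact (W_quot D hg i s g).2 (h3 g ((W_quot D hg (i + 1) 0 g).1 hg'))

theorem Hyp_pos {Q M : Type*} [Group M] [MulAction M Q] {D : LoopData Q M}
    {i t : ℕ} (h : Hyp D i t) : 0 < t := by
  rcases h with ⟨c, h1, h2, _⟩ | ⟨s, h1, h2, _⟩ <;> omega

theorem CC_pos (k : ℕ) : ∀ t : ℕ → ℕ, (∀ i < k, 0 < t i) → 0 < CC k t := by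
  intro t ht
  rw [CC_prod]
  exact Finset.prod_pos fun i hi => ht i (Finset.mem_range.1 hi)

/-- The key induction along the upper central series of the loop. -/
theorem keyt (k : ℕ) : ∀ (Q M : Type u) [Group M] [MulAction M Q] [FaithfulSMul M Q]
    (D : LoopData Q M) (t : ℕ → ℕ), Gen D → (∀ a, a ∈ Zd D (k + 1)) →
    (∀ i < k, Hyp D i (t i)) →
    ∃ F : Filt M, F.S 0 = ⊤ ∧ F.S 1 = ⊤ ∧ (∀ n, CC k t < n → F.S n = ⊥) ∧
      ∀ k, ∀ V ∈ (cubeFilt F k).S 0,
        (fun v => D.r (V v • D.o)) ∈ (cubeFilt F k).S 0 ∧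
        (fun v => D.l (V v • D.o)) ∈ (cubeFilt F k).S 0 := by
  induction k with
  | zero =>
    intro Q M _ _ _ D t hg hk _
    exact keyk 1 Q M D t hg hk (fun i hi => by omega)
  | succ k ih =>
    intro Q M _ _ _ D t hg hk hc
    have hk' : ∀ a, a ∈ Zd D.quot (k + 1) := by
      intro a'
      obtain ⟨a, rfl⟩ := qq_surj a'
      exact (Zd_quot D hg (k + 1) a).2 (hk a)
    have hc' : ∀ i < k, Hyp D.quot i (t (i + 1)) :=
      fun i hi => Hyp_quot D hg i _ (hc (i + 1) (by omega))
    obtain ⟨F', h0, h1, hb, hcl⟩ := ih (QQ Q M) (MM Q M) D.quot (fun i => t (i + 1))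
      (gen_quot D hg) hk' hc'
    have hpos : 0 < CC k (fun i => t (i + 1)) := CC_pos k _ fun i hi => Hyp_pos (hc' i hi)
    rcases hc 0 (by omega) with ⟨c, c1, c2, c3⟩ | ⟨s, s1, s2, s3⟩
    · have hM : Subgroup.upperCentralSeries M (c - 1 + 1) = ⊤ := by
        rw [eq_top_iff]
        intro g _
        rw [Nat.sub_add_cancel c1]
        exact (W_zero D c g).1 (c3 g)
      obtain ⟨F, f0, f1, f2, f3⟩ := stepF D (c - 1) _ hpos hM F' h0 h1 hb hcl
      refine ⟨F, f0, f1, fun n hn => f2 n ?_, f3⟩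
      refine lt_of_le_of_lt (Nat.mul_le_mul_right _ ?_) hn
      omega
    · have hs : (pp Q M).ker ≤ Subgroup.upperCentralSeries M s := by
        intro g hgk
        rw [← W_zero D s]
        apply s3
        rw [← W_quot D hg, MonoidHom.mem_ker.1 hgk]
        exact (W_zero D.quot 0 1).2 (Subgroup.one_mem _)
      obtain ⟨F, f0, f1, f2, f3⟩ := stepF2 D s _ s1 hpos hs F' h0 h1 hb hcl
      refine ⟨F, f0, f1, fun n hn => f2 n ?_, f3⟩
      exact lt_of_le_of_lt (Nat.mul_le_mul_right _ s2) hn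

/-- The classes of the multiplication groups of the quotients. -/
theorem classW (i : ℕ) : ∀ (Q M : Type u) [Group M] [MulAction M Q] [FaithfulSMul M Q]
    (D : LoopData Q M) (c : ℕ), Gen D → Subgroup.upperCentralSeries M c = ⊤ →
    ∀ g : M, W D i (c - i) g := by
  induction i with
  | zero =>
    intro Q M _ _ _ D c _ hM g
    rw [W_zero, Nat.sub_zero, hM]
    exact Subgroup.mem_top g
  | succ i ih =>
    intro Q M _ _ _ D c hgen hM g
    rw [← W_quot D hgen, show c - (i + 1) = c - 1 - i by omega]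
    refine ih (QQ Q M) (MM Q M) D.quot (c - 1) (gen_quot D hgen) ?_ _
    rw [eq_top_iff]
    intro y _
    obtain ⟨h, rfl⟩ := pp_surj y
    apply ucs_quot (pp Q M) pp_surj pp_center (c - 1)
    have := Subgroup.upperCentralSeries_mono M (show c ≤ c - 1 + 1 by omega)
    apply this
    rw [hM]
    exact Subgroup.mem_top h

theorem W_mono {Q M : Type*} [Group M] [MulAction M Q] (D : LoopData Q M)
    (i : ℕ) (n m : ℕ) (hnm : n ≤ m) (h : ∀ g : M, W D i n g) :
    ∀ g : M, W D i m g := by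
  induction hnm with
  | refl => exact h
  | step _ ih => exact fun g y => ih _

end Pool.Agent.Y345.LS
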