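import Pool.Agent.H340R3.Loop.Final

/-!
# The filtration of the multiplication group along the upper central series of a loop
-/

set_option autoImplicit false

open scoped commutatorElement

namespace Pool.Agent.Y345.LS

open Pool.Agent.H340R3.Loop

universe u

section zd

variable {Q M : Type*} [Group M] [MulAction M Q]

/-- the product of the loop -/
def mu (D : LoopData Q M) (x y : Q) : Q := D.l x • y

/-- the quotient `u / v` of the loop -/
def dv (D : LoopData Q M) (u v : Q) : Q := (D.r v)⁻¹ • u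

/-- the upper central series of the loop -/
def Zd (D : LoopData Q M) : ℕ → Set Q
  | 0 => {D.o}
  | i + 1 => {a | ∀ x y : Q,
      dv D (mu D a x) (mu D x a) ∈ Zd D i ∧
      dv D (mu D (mu D a x) y) (mu D a (mu D x y)) ∈ Zd D i ∧
      dv D (mu D (mu D x a) y) (mu D x (mu D a y)) ∈ Zd D i ∧
      dv D (mu D (mu D x y) a) (mu D x (mu D y a)) ∈ Zd D i}

theorem dv_o (D : LoopData Q M) (u v : Q) : dv D u v ∈ Zd D 0 ↔ u = v := by
  change (D.r v)⁻¹ • u = D.o ↔ u = v
  rw [inv_smul_eq_iff, D.ro]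

/-- the translations generate the group -/
def Gen (D : LoopData Q M) : Prop :=
  Subgroup.closure (Set.range D.l ∪ Set.range D.r) = ⊤

theorem one_center [FaithfulSMul M Q] (D : LoopData Q M) (hg : Gen D) {a : Q}
    (ha : a ∈ Zd D 1) : D.l a ∈ Subgroup.center M := by
  have h : ∀ x y : Q, mu D a x = mu D x a ∧ mu D (mu D a x) y = mu D a (mu D x y) ∧
      mu D (mu D x a) y = mu D x (mu D a y) ∧ mu D (mu D x y) a = mu D x (mu D y a) := by
    intro x y
    obtain ⟨h1, h2, h3, h4⟩ := ha x y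
    exact ⟨(dv_o D _ _).1 h1, (dv_o D _ _).1 h2, (dv_o D _ _).1 h3, (dv_o D _ _).1 h4⟩
  have hc : Subgroup.closure (Set.range D.l ∪ Set.range D.r) ≤
      Subgroup.centralizer {D.l a} := by
    rw [Subgroup.closure_le]
    rintro g (⟨x, rfl⟩ | ⟨x, rfl⟩)
    · rw [SetLike.mem_coe, Subgroup.mem_centralizer_iff]
      rintro _ rfl
      apply FaithfulSMul.eq_of_smul_eq_smul (α := Q)
      intro y
      rw [mul_smul, mul_smul]
      change mu D a (mu D x y) = mu D x (mu D a y)
      rw [← (h x y).2.1, ← (h x y).2.2.1, (h x y).1]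
    · rw [SetLike.mem_coe, Subgroup.mem_centralizer_iff]
      rintro _ rfl
      apply FaithfulSMul.eq_of_smul_eq_smul (α := Q)
      intro y
      rw [mul_smul, mul_smul, ← D.lr, ← D.lr]
      exact ((h y x).2.1).symm
  rw [Gen] at hg
  rw [Subgroup.mem_center_iff]
  intro g
  have hgm : g ∈ Subgroup.centralizer {D.l a} := hc (by rw [hg]; exact Subgroup.mem_top g)
  exact ((Subgroup.mem_centralizer_iff.1 hgm) _ rfl).symm

theorem center_one [FaithfulSMul M Q] (D : LoopData Q M) {z : M}
    (hz : z ∈ Subgroup.center M) : z • D.o ∈ Zd D 1 := by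
  have hl : D.l (z • D.o) = z := by
    rw [D.l_center hz]
    have : D.l D.o = 1 := by
      apply FaithfulSMul.eq_of_smul_eq_smul (α := Q)
      intro x
      rw [D.lr, D.ro, one_smul]
    rw [this, mul_one]
  have hs : ∀ (g : M) (x : Q), g • z • x = z • g • x := fun g x => center_smul hz g x
  have e1 : ∀ x : Q, mu D x (z • D.o) = z • x := by
    intro x
    change D.l x • z • D.o = z • x
    rw [hs, D.lo]
  have e2 : ∀ x : Q, mu D (z • D.o) x = z • x := by
    intro x
    change D.l (z • D.o) • x = z • x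
    rw [hl]
  have e3 : ∀ x y : Q, mu D (z • x) y = z • mu D x y := by
    intro x y
    change D.l (z • x) • y = z • D.l x • y
    rw [D.l_center hz, mul_smul]
  have e4 : ∀ x y : Q, mu D x (z • y) = z • mu D x y := fun x y => hs _ _
  intro x y
  refine ⟨(dv_o D _ _).2 ?_, (dv_o D _ _).2 ?_, (dv_o D _ _).2 ?_, (dv_o D _ _).2 ?_⟩
  · rw [e1, e2]
  · rw [e2, e2, e3]
  · rw [e1, e2, e3, e4]
  · rw [e1, e1, e4]

theorem mu_quot [FaithfulSMul M Q] (D : LoopData Q M) (x y : Q) :
    mu D.quot (qq Q M x) (qq Q M y) = qq Q M (mu D x y) := pp_smul (D.l x) y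

theorem dv_quot [FaithfulSMul M Q] (D : LoopData Q M) (x y : Q) :
    dv D.quot (qq Q M x) (qq Q M y) = qq Q M (dv D x y) := by
  change (pp Q M (D.r y))⁻¹ • qq Q M x = qq Q M ((D.r y)⁻¹ • x)
  rw [← map_inv, pp_smul]

theorem gen_quot [FaithfulSMul M Q] (D : LoopData Q M) (hg : Gen D) : Gen D.quot := by
  rw [Gen] at hg ⊢
  have h1 : Set.range D.quot.l ∪ Set.range D.quot.r =
      (pp Q M) '' (Set.range D.l ∪ Set.range D.r) := by
    rw [Set.image_union]
    congr 1
    · ext g
      constructor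
      · rintro ⟨w, rfl⟩
        obtain ⟨x, rfl⟩ := qq_surj w
        exact ⟨D.l x, ⟨x, rfl⟩, rfl⟩
      · rintro ⟨_, ⟨x, rfl⟩, rfl⟩
        exact ⟨qq Q M x, rfl⟩
    · ext g
      constructor
      · rintro ⟨w, rfl⟩
        obtain ⟨x, rfl⟩ := qq_surj w
        exact ⟨D.r x, ⟨x, rfl⟩, rfl⟩
      · rintro ⟨_, ⟨x, rfl⟩, rfl⟩
        exact ⟨qq Q M x, rfl⟩
  rw [h1, ← MonoidHom.map_closure, hg]
  exact Subgroup.map_top_of_surjective _ pp_surj

/-- The upper central series of the quotient loop. -/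
theorem Zd_quot [FaithfulSMul M Q] (D : LoopData Q M) (hg : Gen D) (i : ℕ) :
    ∀ a : Q, qq Q M a ∈ Zd D.quot i ↔ a ∈ Zd D (i + 1) := by
  induction i with
  | zero =>
    intro a
    constructor
    · intro h
      have h' : qq Q M a = qq Q M D.o := h
      obtain ⟨z, hz, rfl⟩ := qq_eq.1 h'
      exact center_one D hz
    · intro h
      have hz := one_center D hg h
      change qq Q M a = qq Q M D.o
      exact qq_eq.2 ⟨_, hz, (D.lo a).symm⟩
  | succ i ih =>
    intro a
    have key : ∀ x y : Q,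
        ((dv D.quot (mu D.quot (qq Q M a) (qq Q M x)) (mu D.quot (qq Q M x) (qq Q M a)) ∈ Zd D.quot i ∧
        dv D.quot (mu D.quot (mu D.quot (qq Q M a) (qq Q M x)) (qq Q M y))
          (mu D.quot (qq Q M a) (mu D.quot (qq Q M x) (qq Q M y))) ∈ Zd D.quot i ∧
        dv D.quot (mu D.quot (mu D.quot (qq Q M x) (qq Q M a)) (qq Q M y))
          (mu D.quot (qq Q M x) (mu D.quot (qq Q M a) (qq Q M y))) ∈ Zd D.quot i ∧
        dv D.quot (mu D.quot (mu D.quot (qq Q M x) (qq Q M y)) (qq Q M a))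
          (mu D.quot (qq Q M x) (mu D.quot (qq Q M y) (qq Q M a))) ∈ Zd D.quot i) ↔
        (dv D (mu D a x) (mu D x a) ∈ Zd D (i + 1) ∧
        dv D (mu D (mu D a x) y) (mu D a (mu D x y)) ∈ Zd D (i + 1) ∧
        dv D (mu D (mu D x a) y) (mu D x (mu D a y)) ∈ Zd D (i + 1) ∧
        dv D (mu D (mu D x y) a) (mu D x (mu D y a)) ∈ Zd D (i + 1))) := by
      intro x y
      simp only [mu_quot, dv_quot, ih]
    constructor
    · intro h x y
      exact (key x y).1 (h _ _)
    · intro h x' y'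
      obtain ⟨x, rfl⟩ := qq_surj x'
      obtain ⟨y, rfl⟩ := qq_surj y'
      exact (key x y).2 (h x y)

end zd

/-- The induction step. -/
theorem stepF {Q M : Type u} [Group M] [MulAction M Q] [FaithfulSMul M Q]
    (D : LoopData Q M) (m e : ℕ) (he : 0 < e) (hM : Subgroup.upperCentralSeries M (m + 1) = ⊤)
    (F' : Filt (MM Q M)) (h0 : F'.S 0 = ⊤) (h1 : F'.S 1 = ⊤) (hb : ∀ n, e < n → F'.S n = ⊥)
    (hcl : ∀ k, ∀ V ∈ (cubeFilt F' k).S 0,
        (fun v => D.quot.r (V v • D.quot.o)) ∈ (cubeFilt F' k).S 0 ∧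
        (fun v => D.quot.l (V v • D.quot.o)) ∈ (cubeFilt F' k).S 0) :
    ∃ F : Filt M, F.S 0 = ⊤ ∧ F.S 1 = ⊤ ∧ (∀ n, (2 * m + 1) * e < n → F.S n = ⊥) ∧
      ∀ k, ∀ V ∈ (cubeFilt F k).S 0,
        (fun v => D.r (V v • D.o)) ∈ (cubeFilt F k).S 0 ∧
        (fun v => D.l (V v • D.o)) ∈ (cubeFilt F k).S 0 := by
  let F : Filt M := mkFilt (pp Q M) F' e (m + 1) hb hM pp_ker_comm (jj m e)
    (fun n _ => jj1 m e n) (fun a b _ hb => jj2 m e he a b hb)
    (fun n _ hn => jj3 m e he n hn)
  let Fs : Filt M := mkFilt (pp Q M) F' e (m + 1) hb hM pp_ker_comm (js m e)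
    (fun n _ => js1 m e he n) (fun a b _ hb => js2 m e he a b hb)
    (fun n _ hn => js3 m e he n hn)
  have hF : ∀ n, F.S n = if n ≤ e then (F'.S n).comap (pp Q M) else
    (pp Q M).ker ⊓ Subgroup.upperCentralSeries M (jj m e n) := fun n => rfl
  have hFs : ∀ n, Fs.S n = if n ≤ e then (F'.S n).comap (pp Q M) else
    (pp Q M).ker ⊓ Subgroup.upperCentralSeries M (js m e n) := fun n => rfl
  have hE : e ≤ (2 * m + 1) * e := by nlinarith
  have hd : e ≤ (m + 1) * e := by nlinarith
  have a1 : ∀ n, (2 * m + 1) * e < n → F.S n = ⊥ := by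
    intro n hn
    rw [hF, if_neg (by omega), jj5 m e he n hn, Subgroup.upperCentralSeries_zero, inf_bot_eq]
  have a2 : ∀ n, (m + 1) * e < n → Fs.S n = ⊥ := by
    intro n hn
    rw [hFs, if_neg (by omega), js5 m e he n hn, Subgroup.upperCentralSeries_zero, inf_bot_eq]
  have a3 : ∀ n, n ≤ (m + 1) * e → (pp Q M).ker ≤ F.S n := by
    intro n hn
    rw [hF]
    split_ifs with h
    · intro g hg
      rw [Subgroup.mem_comap, MonoidHom.mem_ker.1 hg]
      exact Subgroup.one_mem _
    · refine le_inf le_rfl ?_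
      have := Subgroup.upperCentralSeries_mono M (jj4 m e he n hn)
      rw [hM] at this
      exact le_trans le_top this
  have a4 : ∀ n, n ≤ (2 * m + 1) * e → Subgroup.center M ≤ F.S n := by
    intro n hn
    rw [hF]
    split_ifs with h
    · intro g hg
      rw [Subgroup.mem_comap, MonoidHom.mem_ker.1 (pp_center hg)]
      exact Subgroup.one_mem _
    · refine le_inf pp_center ?_
      rw [← Subgroup.upperCentralSeries_one]
      exact Subgroup.upperCentralSeries_mono M (jj6 m e he n hn)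
  have a5 : ∀ n, Fs.S n ≤ F.S n := by
    intro n
    rw [hF, hFs]
    split_ifs with h
    · exact le_rfl
    · exact inf_le_inf_left _ (Subgroup.upperCentralSeries_mono M (js_le m e he n))
  have a6 : ∀ n, ∀ g ∈ F.S n, pp Q M g ∈ F'.S n := by
    intro n g hg
    rw [hF] at hg
    split_ifs at hg with h
    · exact hg
    · rw [MonoidHom.mem_ker.1 hg.1]
      exact Subgroup.one_mem _
  have a7 : ∀ n, ∀ g' ∈ F'.S n, ∃ g ∈ Fs.S n, pp Q M g = g' := by
    intro n g' hg'
    rw [hFs]
    split_ifs with h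
    · obtain ⟨g, rfl⟩ := pp_surj g'
      exact ⟨g, hg', rfl⟩
    · rw [hb n (by omega), Subgroup.mem_bot] at hg'
      exact ⟨1, Subgroup.one_mem _, by rw [hg', map_one]⟩
  have top0 : F.S 0 = ⊤ := by
    rw [hF, if_pos (Nat.zero_le _), h0, Subgroup.comap_top]
  have top1 : F.S 1 = ⊤ := by
    rw [hF, if_pos (show 1 ≤ e from he), h1, Subgroup.comap_top]
  have tops : Fs.S 0 = ⊤ := by
    rw [hFs, if_pos (Nat.zero_le _), h0, Subgroup.comap_top]
  refine ⟨F, top0, top1, a1, ?_⟩
  intro k V hV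
  constructor
  · exact step_r D D.quot (pp Q M) (qq Q M) (fun g x => (pp_smul g x).symm)
      (fun x y h => qq_eq.1 h) pp_center rfl (fun x => rfl) F Fs F' a6 a7 a5 _ _ a2 a3 a1 a4
      tops k (fun V hV => (hcl k V hV).1) V hV
  · exact step_r D.swap D.quot.swap (pp Q M) (qq Q M) (fun g x => (pp_smul g x).symm)
      (fun x y h => qq_eq.1 h) pp_center rfl (fun x => rfl) F Fs F' a6 a7 a5 _ _ a2 a3 a1 a4
      tops k (fun V hV => (hcl k V hV).2) V hV

/-- The bound. -/
def BB : ℕ → (ℕ → ℕ) → ℕ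
  | 0, _ => 1
  | 1, _ => 1
  | k + 2, c => (2 * (c 0 - 1) + 1) * BB (k + 1) (fun i => c (i + 1))

theorem BB_pos (k : ℕ) : ∀ c : ℕ → ℕ, 0 < BB k c := by
  induction k with
  | zero => intro c; exact one_pos
  | succ k ih =>
    intro c
    cases k with
    | zero => exact one_pos
    | succ k => exact Nat.mul_pos (by omega) (ih _)

theorem BB_prod (k : ℕ) : ∀ c : ℕ → ℕ,
    BB (k + 1) c = ∏ i ∈ Finset.range k, (2 * (c i - 1) + 1) := by
  induction k with
  | zero => intro c; rfl
  | succ k ih =>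
    intro c
    rw [BB, ih, Finset.prod_range_succ', mul_comm]

/-- The key induction along the upper central series of the loop. -/
theorem keyk (k : ℕ) : ∀ (Q M : Type u) [Group M] [MulAction M Q] [FaithfulSMul M Q]
    (D : LoopData Q M) (c : ℕ → ℕ), Gen D → (∀ a, a ∈ Zd D k) →
    (∀ i, i + 1 < k → ∀ g ∈ (⊤ : Subgroup M).lowerCentralSeries (c i), ∀ x : Q,
      dv D (g • x) x ∈ Zd D i) →
    ∃ F : Filt M, F.S 0 = ⊤ ∧ F.S 1 = ⊤ ∧ (∀ n, BB k c < n → F.S n = ⊥) ∧
      ∀ k, ∀ V ∈ (cubeFilt F k).S 0,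
        (fun v => D.r (V v • D.o)) ∈ (cubeFilt F k).S 0 ∧
        (fun v => D.l (V v • D.o)) ∈ (cubeFilt F k).S 0 := by
  induction k with
  | zero =>
    intro Q M _ _ _ D c _ hk _
    have hM : Subgroup.upperCentralSeries M 0 = ⊤ := by
      rw [Subgroup.upperCentralSeries_zero, eq_comm, Subgroup.eq_bot_iff_forall]
      intro g _
      apply FaithfulSMul.eq_of_smul_eq_smul (α := Q)
      intro x
      have h1 : g • x = D.o := hk _
      have h2 : x = D.o := hk _
      rw [h1, one_smul, h2]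
    exact key 0 Q M D hM
  | succ k ih =>
    intro Q M _ _ _ D c hg hk hc
    cases k with
    | zero =>
      have hl : ∀ a, D.l a ∈ Subgroup.center M := fun a => one_center D hg (hk a)
      have hr : ∀ a, D.r a ∈ Subgroup.center M := by
        intro a
        have h1 : D.r a = D.l a := by
          apply FaithfulSMul.eq_of_smul_eq_smul (α := Q)
          intro x
          have := (dv_o D _ _).1 (hk a x x).1
          rw [← D.lr]
          exact this.symm
        rw [h1]
        exact hl a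
      have hM : Subgroup.upperCentralSeries M 1 = ⊤ := by
        rw [Subgroup.upperCentralSeries_one, eq_top_iff]
        rw [Gen] at hg
        rw [← hg, Subgroup.closure_le]
        rintro g (⟨x, rfl⟩ | ⟨x, rfl⟩)
        · exact hl x
        · exact hr x
      exact key 1 Q M D hM
    | succ k =>
      have hM : Subgroup.upperCentralSeries M (c 0 - 1 + 1) = ⊤ := by
        have h1 : (⊤ : Subgroup M).lowerCentralSeries (c 0) = ⊥ := by
          rw [Subgroup.eq_bot_iff_forall]
          intro g hg'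
          apply FaithfulSMul.eq_of_smul_eq_smul (α := Q)
          intro x
          have := (dv_o D _ _).1 (hc 0 (by omega) g hg' x)
          rw [this, one_smul]
        have h2 := Subgroup.lowerCentralSeries_eq_bot_iff_upperCentralSeries_eq_top.1 h1
        rw [eq_top_iff, ← h2]
        exact Subgroup.upperCentralSeries_mono M (by omega)
      have hk' : ∀ a, a ∈ Zd D.quot (k + 1) := by
        intro a'
        obtain ⟨a, rfl⟩ := qq_surj a'
        exact (Zd_quot D hg (k + 1) a).2 (hk a)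
      have hc' : ∀ i, i + 1 < k + 1 → ∀ g ∈ (⊤ : Subgroup (MM Q M)).lowerCentralSeries (c (i + 1)),
          ∀ x : QQ Q M, dv D.quot (g • x) x ∈ Zd D.quot i := by
        intro i hi g' hg' x'
        obtain ⟨x, rfl⟩ := qq_surj x'
        have h3 : (⊤ : Subgroup (MM Q M)) = (⊤ : Subgroup M).map (pp Q M) :=
          (Subgroup.map_top_of_surjective _ pp_surj).symm
        rw [h3, ← Subgroup.map_lowerCentralSeries] at hg'
        obtain ⟨g, hg2, rfl⟩ := hg'
        rw [pp_smul, dv_quot, Zd_quot D hg]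
        exact hc (i + 1) (by omega) g hg2 x
      obtain ⟨F', h0, h1, hb, hcl⟩ := ih (QQ Q M) (MM Q M) D.quot (fun i => c (i + 1))
        (gen_quot D hg) hk' hc'
      exact stepF D (c 0 - 1) (BB (k + 1) (fun i => c (i + 1))) (BB_pos _ _) hM F' h0 h1 hb hcl

/-- The classes of the multiplication groups of the quotients. -/
theorem classes (i : ℕ) : ∀ (Q M : Type u) [Group M] [MulAction M Q] [FaithfulSMul M Q]
    (D : LoopData Q M) (c : ℕ), Gen D → Subgroup.upperCentralSeries M c = ⊤ →
    ∀ g ∈ (⊤ : Subgroup M).lowerCentralSeries (c - i), ∀ x : Q, dv D (g • x) x ∈ Zd D i := by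
  induction i with
  | zero =>
    intro Q M _ _ _ D c _ hM g hg x
    rw [Nat.sub_zero, Subgroup.lowerCentralSeries_eq_bot_iff_upperCentralSeries_eq_top.2 hM,
      Subgroup.mem_bot] at hg
    rw [hg, one_smul]
    exact (dv_o D _ _).2 rfl
  | succ i ih =>
    intro Q M _ _ _ D c hgen hM g hg x
    rw [← Zd_quot D hgen, ← dv_quot, ← pp_smul]
    have hM' : Subgroup.upperCentralSeries (MM Q M) (c - 1) = ⊤ := by
      rw [eq_top_iff]
      intro y _
      obtain ⟨h, rfl⟩ := pp_surj y
      apply ucs_quot (pp Q M) pp_surj pp_center (c - 1)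
      have := Subgroup.upperCentralSeries_mono M (show c ≤ c - 1 + 1 by omega)
      apply this
      rw [hM]
      exact Subgroup.mem_top h
    refine ih (QQ Q M) (MM Q M) D.quot (c - 1) (gen_quot D hgen) hM' _ ?_ _
    have h3 : (⊤ : Subgroup (MM Q M)) = (⊤ : Subgroup M).map (pp Q M) :=
      (Subgroup.map_top_of_surjective _ pp_surj).symm
    rw [h3, ← Subgroup.map_lowerCentralSeries, show c - 1 - i = c - (i + 1) by omega]
    exact ⟨g, hg, rfl⟩

/-- Bruck: the central class of a loop is at most the class of its multiplication group. -/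
theorem bruck (c : ℕ) : ∀ (Q M : Type u) [Group M] [MulAction M Q] [FaithfulSMul M Q]
    (D : LoopData Q M), Gen D → Subgroup.upperCentralSeries M c = ⊤ → ∀ a, a ∈ Zd D c := by
  induction c with
  | zero =>
    intro Q M _ _ _ D _ hM a
    rw [Subgroup.upperCentralSeries_zero] at hM
    have h1 : D.l a = 1 := by
      have : D.l a ∈ (⊥ : Subgroup M) := by rw [hM]; exact Subgroup.mem_top _
      rwa [Subgroup.mem_bot] at this
    change a = D.o
    rw [← D.lo a, h1, one_smul]
  | succ c ih =>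
    intro Q M _ _ _ D hgen hM a
    rw [← Zd_quot D hgen]
    apply ih (QQ Q M) (MM Q M) D.quot (gen_quot D hgen)
    rw [eq_top_iff]
    intro y _
    obtain ⟨h, rfl⟩ := pp_surj y
    apply ucs_quot (pp Q M) pp_surj pp_center c
    rw [hM]
    exact Subgroup.mem_top h

end Pool.Agent.Y345.LS
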